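import Pool.Agent.helper82.KN.Spec

/-!
# Row kn:SPB (MP_8ffa71_co): from the spectrum to the matrix equation
-/

set_option autoImplicit false

open Finset Polynomial

namespace Pool.Agent.KN

/-- the real all-one matrix -/
def SPB_J (V : Type) : Matrix V V ℝ := Matrix.of fun _ _ => 1

theorem SPB_AJ {V : Type} [Fintype V] [DecidableEq V] (A : Matrix V V ℝ) (h : ∀ u, ∑ v, A u v = 20) :
    A * SPB_J V = (20 : ℝ) • SPB_J V := by
  ext u v
  rw [Matrix.mul_apply, Matrix.smul_apply]
  simp only [SPB_J, Matrix.of_apply, mul_one, smul_eq_mul]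
  exact h u

theorem SPB_JA {V : Type} [Fintype V] [DecidableEq V] (A : Matrix V V ℝ) (hs : ∀ u v, A u v = A v u)
    (h : ∀ u, ∑ v, A u v = 20) : SPB_J V * A = (20 : ℝ) • SPB_J V := by
  ext u v
  rw [Matrix.mul_apply, Matrix.smul_apply]
  simp only [SPB_J, Matrix.of_apply, one_mul, smul_eq_mul, mul_one]
  rw [← h v]
  exact Finset.sum_congr rfl fun w _ => hs w v

theorem SPB_JJ {V : Type} [Fintype V] [DecidableEq V] (h : Fintype.card V = 84) :
    SPB_J V * SPB_J V = (84 : ℝ) • SPB_J V := by
  ext u v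
  rw [Matrix.mul_apply, Matrix.smul_apply]
  simp only [SPB_J, Matrix.of_apply, one_mul, smul_eq_mul, mul_one, Finset.sum_const,
    Finset.card_univ, h, nsmul_eq_mul]
  norm_num

theorem SPB_expand {V : Type} [Fintype V] [DecidableEq V] (A : Matrix V V ℝ) :
    (A - (4 : ℝ) • 1) * (A + 1) * (A + (10 : ℝ) • 1) =
      A * A * A + (7 : ℝ) • (A * A) - (34 : ℝ) • A - (40 : ℝ) • 1 := by
  simp only [sub_mul, mul_add, add_mul, smul_mul_assoc, mul_smul_comm, one_mul, mul_one, mul_sub,
    smul_add, smul_sub, smul_smul]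
  module

theorem SPB (hSPA : SPA_stmt) : SPB_stmt := by
  intro V _ _ G _ hcp
  set A : Matrix V V ℝ := G.adjMatrix ℝ with hA
  have hsymm : ∀ u v, A u v = A v u := by
    intro u v
    rw [hA, SimpleGraph.adjMatrix_apply, SimpleGraph.adjMatrix_apply]
    simp only [G.adj_comm]
  have hzo : ∀ u v, A u v = 0 ∨ A u v = 1 := by
    intro u v
    rw [hA, SimpleGraph.adjMatrix_apply]
    split_ifs
    · right; rfl
    · left; rfl
  have hherm : A.IsHermitian := by
    ext u v
    rw [Matrix.conjTranspose_apply, star_trivial]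
    exact hsymm v u
  obtain ⟨hcard, hB1, htr2, htrB, hpos⟩ := hSPA V A hherm hcp
  -- the sum of all entries
  have hsumA : ∑ u, ∑ v, A u v = 1680 := by
    rw [← htr2, Matrix.trace]
    refine Finset.sum_congr rfl fun u _ => ?_
    rw [Matrix.diag_apply, Matrix.mul_apply]
    refine Finset.sum_congr rfl fun v _ => ?_
    rw [hsymm v u]
    rcases hzo u v with h | h <;> rw [h] <;> norm_num
  -- row sums
  have hQ : ((20 : ℝ) • (1 : Matrix V V ℝ) - A).PosSemidef := by
    refine Matrix.PosSemidef.of_dotProduct_mulVec_nonneg ?_ fun x => ?_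
    · ext u v
      rw [Matrix.conjTranspose_apply, star_trivial, Matrix.sub_apply, Matrix.sub_apply,
        Matrix.smul_apply, Matrix.smul_apply, hsymm v u, Matrix.one_apply, Matrix.one_apply]
      simp only [eq_comm]
    · rw [star_trivial]
      exact hpos x
  have hQ1 : ((20 : ℝ) • (1 : Matrix V V ℝ) - A).mulVec (fun _ => 1) = fun u => 20 - ∑ v, A u v := by
    rw [Matrix.sub_mulVec, Matrix.smul_mulVec, Matrix.one_mulVec]
    ext u
    rw [Pi.sub_apply, Pi.smul_apply, Matrix.mulVec, dotProduct]
    simp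
  have hrow : ∀ u, ∑ v, A u v = 20 := by
    have h1 := (hQ.dotProduct_mulVec_zero_iff (fun _ => 1)).1 (by
      rw [hQ1, star_trivial, dotProduct]
      simp only [one_mul]
      rw [Finset.sum_sub_distrib, hsumA, Finset.sum_const, Finset.card_univ, hcard, nsmul_eq_mul]
      norm_num)
    rw [hQ1] at h1
    intro u
    have h2 := congrFun h1 u
    simp only [Pi.zero_apply] at h2
    linarith
  -- the matrix B
  set J := SPB_J V with hJ
  have hAJ : A * J = (20 : ℝ) • J := SPB_AJ A hrow
  have hJA : J * A = (20 : ℝ) • J := SPB_JA A hsymm hrow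
  have hJJ : J * J = (84 : ℝ) • J := SPB_JJ hcard
  set B : Matrix V V ℝ := (A - (4 : ℝ) • 1) * (A + 1) * (A + (10 : ℝ) • 1) with hB
  have hBexp : B = A * A * A + (7 : ℝ) • (A * A) - (34 : ℝ) • A - (40 : ℝ) • 1 := SPB_expand A
  have hAB : A * B = (20 : ℝ) • B := by
    rw [sub_mul, smul_mul_assoc, one_mul, sub_eq_zero] at hB1
    exact hB1
  have hBB : B * B = (10080 : ℝ) • B := by
    have h1 : B * B = A * (A * (A * B)) + (7 : ℝ) • (A * (A * B)) - (34 : ℝ) • (A * B) - (40 : ℝ) • B := by
      nth_rewrite 1 [hBexp]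
      simp only [sub_mul, add_mul, smul_mul_assoc, one_mul, mul_assoc]
    rw [h1]
    simp only [hAB, mul_smul_comm, smul_smul]
    module
  have hBJ : B * J = (10080 : ℝ) • J := by
    have h1 : B * J = A * (A * (A * J)) + (7 : ℝ) • (A * (A * J)) - (34 : ℝ) • (A * J) - (40 : ℝ) • J := by
      nth_rewrite 1 [hBexp]
      simp only [sub_mul, add_mul, smul_mul_assoc, one_mul, mul_assoc]
    rw [h1]
    simp only [hAJ, mul_smul_comm, smul_smul]
    module
  have hJB : J * B = (10080 : ℝ) • J := by
    have h1 : J * B = J * A * A * A + (7 : ℝ) • (J * A * A) - (34 : ℝ) • (J * A) - (40 : ℝ) • J := by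
      rw [hBexp]
      simp only [mul_sub, mul_add, mul_smul_comm, mul_one, ← mul_assoc]
    rw [h1]
    simp only [hJA, smul_mul_assoc, smul_smul]
    module
  set C : Matrix V V ℝ := B - (120 : ℝ) • J with hC
  have hCC : C * C = (10080 : ℝ) • C := by
    rw [hC]
    simp only [sub_mul, mul_sub, smul_mul_assoc, mul_smul_comm, hBB, hBJ, hJB, hJJ, smul_smul,
      smul_sub]
    module
  have htrJ : J.trace = 84 := by
    rw [Matrix.trace]
    simp only [Matrix.diag_apply, hJ, SPB_J, Matrix.of_apply, Finset.sum_const, Finset.card_univ,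
      hcard, nsmul_eq_mul, mul_one]
    norm_num
  have htrC : C.trace = 0 := by
    rw [hC, Matrix.trace_sub, Matrix.trace_smul, htrJ, hB, htrB, smul_eq_mul]
    norm_num
  have hT : A.transpose = A := by
    ext u v
    rw [Matrix.transpose_apply]
    exact hsymm v u
  have hJT : J.transpose = J := by
    ext u v
    rfl
  have hCT : C.transpose = C := by
    rw [hC, hBexp]
    simp only [Matrix.transpose_sub, Matrix.transpose_add, Matrix.transpose_smul, Matrix.transpose_mul,
      Matrix.transpose_one, hT, hJT, mul_assoc]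
  have hC0 : C = 0 := by
    have h1 : (C * C).trace = 0 := by
      rw [hCC, Matrix.trace_smul, htrC, smul_zero]
    have h2 : ∑ u, ∑ v, C u v ^ 2 = 0 := by
      rw [← h1, Matrix.trace]
      refine Finset.sum_congr rfl fun u _ => ?_
      rw [Matrix.diag_apply, Matrix.mul_apply]
      refine Finset.sum_congr rfl fun v _ => ?_
      have h3 : C v u = C u v := by
        have h4 := congrFun (congrFun hCT u) v
        rwa [Matrix.transpose_apply] at h4
      rw [h3]
      ring
    ext u v
    rw [Finset.sum_eq_zero_iff_of_nonneg (fun u _ => Finset.sum_nonneg fun v _ => sq_nonneg _)] at h2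
    have h3 := h2 u (Finset.mem_univ _)
    rw [Finset.sum_eq_zero_iff_of_nonneg (fun v _ => sq_nonneg _)] at h3
    have h4 := h3 v (Finset.mem_univ _)
    rw [Matrix.zero_apply]
    exact pow_eq_zero_iff (two_ne_zero) |>.1 h4
  have hfin : A * A * A + (7 : ℝ) • (A * A) - (34 : ℝ) • A - (40 : ℝ) • 1 = (120 : ℝ) • J := by
    rw [← hBexp]
    exact sub_eq_zero.1 hC0
  -- back to the integers
  have hmap : (Int.castRingHom ℝ).mapMatrix (G.adjMatrix ℤ) = A := by
    ext u v
    rw [RingHom.mapMatrix_apply, Matrix.map_apply, hA, SimpleGraph.adjMatrix_apply,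
      SimpleGraph.adjMatrix_apply]
    split_ifs <;> simp
  have hmapJ : (Int.castRingHom ℝ).mapMatrix (JJ V) = J := by
    ext u v
    rw [RingHom.mapMatrix_apply, Matrix.map_apply]
    simp [JJ, hJ, SPB_J]
  refine ⟨hcard, ?_, ?_, ?_, ?_, ?_⟩
  · intro u v
    rw [SimpleGraph.adjMatrix_apply, SimpleGraph.adjMatrix_apply]
    simp only [G.adj_comm]
  · intro u v
    rw [SimpleGraph.adjMatrix_apply]
    split_ifs
    · right; rfl
    · left; rfl
  · intro u
    rw [SimpleGraph.adjMatrix_apply, if_neg (G.irrefl)]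
  · intro u
    have h1 : ((∑ v, G.adjMatrix ℤ u v : ℤ) : ℝ) = 20 := by
      rw [← hrow u, Int.cast_sum]
      refine Finset.sum_congr rfl fun v _ => ?_
      rw [hA, SimpleGraph.adjMatrix_apply, SimpleGraph.adjMatrix_apply]
      split_ifs <;> simp
    exact_mod_cast h1
  · have hinj : Function.Injective ((Int.castRingHom ℝ).mapMatrix : Matrix V V ℤ →+* Matrix V V ℝ) := by
      intro X Y h
      ext u v
      have h1 := congrFun (congrFun h u) v
      rw [RingHom.mapMatrix_apply, RingHom.mapMatrix_apply, Matrix.map_apply, Matrix.map_apply,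
        eq_intCast, eq_intCast] at h1
      exact_mod_cast h1
    apply hinj
    rw [map_sub, map_sub, map_add, map_mul, map_mul, map_zsmul, map_zsmul, map_zsmul, map_zsmul,
      map_mul, map_one, hmap, hmapJ]
    simp only [← Int.cast_smul_eq_zsmul ℝ]
    push_cast
    exact hfin

end Pool.Agent.KN
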